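import Pool.Agent.Helper36_F5H.StmtsK

/-!
MP_f5cbfa_nt, squad F5H, row K_PHN.
-/

set_option autoImplicit false

open MeasureTheory Complex ComplexConjugate

namespace Pool.Agent.F5H.K2.H63

open Pool.Agent.F5H.K2

theorem xw_le {M V R ω : ℝ} (hM : 1 ≤ M) (hR : 1 ≤ R) (hRV : R ≤ V) (hω : ω ≤ M * V) :
    xw R V ω ≤ 3 * M * (V / R) := by
  have hR0 : 0 < R := by linarith
  have hV0 : 0 < V := by linarith
  have hy : 1 ≤ V / R := by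
    rw [le_div_iff₀ hR0]
    linarith
  have h1 : 1 / √R ≤ V / R := by
    have hs : 1 ≤ √R := by
      rw [Real.one_le_sqrt]
      exact hR
    have : 1 / √R ≤ 1 := by
      rw [div_le_one (by linarith)]
      exact hs
    linarith
  have h2 : ω / R ≤ M * (V / R) := by
    have : ω / R ≤ (M * V) / R := by
      gcongr
    have e : (M * V) / R = M * (V / R) := by ring
    linarith
  have h3 : V / R ^ 2 ≤ V / R := by
    apply div_le_div_of_nonneg_left hV0.le hR0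
    nlinarith
  unfold xw
  nlinarith [mul_nonneg (by linarith : (0:ℝ) ≤ M - 1) (by linarith : (0:ℝ) ≤ V / R)]

theorem xw_nonneg {V R ω : ℝ} (hR : 1 ≤ R) (hV : 0 ≤ V) (hω : 0 ≤ ω) : 0 ≤ xw R V ω := by
  have hR0 : 0 < R := by linarith
  unfold xw
  positivity

theorem k_PHN : PHNStmt := by
  intro M V₁ V₂ R w ω₁ ω₂ hM hR hRV hV hw hω₁ hω₂ h1 h2
  have hR0 : 0 < R := by linarith
  have hV2 : 0 < V₂ := by linarith
  have hV1 : 0 < V₁ := by linarith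
  have hy1 : 1 ≤ V₁ / R := by
    rw [le_div_iff₀ hR0]
    linarith
  have hy2 : 1 ≤ V₂ / R := by
    rw [le_div_iff₀ hR0]
    linarith
  have hx1 : xw R V₁ ω₁ ≤ 3 * M * (V₁ / R) := xw_le hM hR (by linarith) h1
  have hx2 : xw R V₂ ω₂ ≤ 3 * M * (V₂ / R) := xw_le hM hR hRV h2
  have n1 : 0 ≤ xw R V₁ ω₁ := xw_nonneg hR hV1.le (by linarith)
  have n2 : 0 ≤ xw R V₂ ω₂ := xw_nonneg hR hV2.le (by linarith)
  have hu1 : 1 + xw R V₁ ω₁ ≤ 4 * M * (V₁ / R) := by nlinarith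
  have hu2 : 1 + xw R V₂ ω₂ ≤ 4 * M * (V₂ / R) := by nlinarith
  have hM0 : 0 < M := by linarith
  have hΛ : 0 ≤ V₁ ^ 3 * (w + 1 / R) / V₂ := by positivity
  unfold PH
  generalize hx₁ : xw R V₁ ω₁ = x₁ at *
  generalize hx₂ : xw R V₂ ω₂ = x₂ at *
  have hq1 : (1 + x₁) ^ 2 ≤ (4 * M * (V₁ / R)) ^ 2 := by gcongr
  have hq2 : (1 + x₂) ^ 2 ≤ (4 * M * (V₂ / R)) ^ 2 := by gcongr
  have key : (1 + x₁) ^ 2 * (1 + x₂) ^ 2 + (1 + x₁) ^ 2 * (V₂ * x₂) + (1 + x₂) ^ 2 * (V₁ * x₁) +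
      V₁ ^ 3 * (w + 1 / R) / V₂ * (x₁ * x₂) ≤
      (4 * M * (V₁ / R)) ^ 2 * (4 * M * (V₂ / R)) ^ 2 +
      (4 * M * (V₁ / R)) ^ 2 * (V₂ * (3 * M * (V₂ / R))) +
      (4 * M * (V₂ / R)) ^ 2 * (V₁ * (3 * M * (V₁ / R))) +
      V₁ ^ 3 * (w + 1 / R) / V₂ * ((3 * M * (V₁ / R)) * (3 * M * (V₂ / R))) := by
    gcongr
  have hpre : 0 ≤ R ^ 3 / (V₁ ^ 2 * V₂ ^ 2) := by positivity
  have step := mul_le_mul_of_nonneg_left key hpre
  refine step.trans ?_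
  have e : R ^ 3 / (V₁ ^ 2 * V₂ ^ 2) * ((4 * M * (V₁ / R)) ^ 2 * (4 * M * (V₂ / R)) ^ 2 +
      (4 * M * (V₁ / R)) ^ 2 * (V₂ * (3 * M * (V₂ / R))) +
      (4 * M * (V₂ / R)) ^ 2 * (V₁ * (3 * M * (V₁ / R))) +
      V₁ ^ 3 * (w + 1 / R) / V₂ * ((3 * M * (V₁ / R)) * (3 * M * (V₂ / R)))) =
      256 * M ^ 4 * (1 / R) + 96 * M ^ 3 + 9 * M ^ 2 * ((V₁ / V₂) ^ 2 * (1 + w * R)) := by
    field_simp
    ring
  rw [e]
  have hz : 1 ≤ (V₁ / V₂) ^ 2 * (1 + w * R) := by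
    have a : 1 ≤ V₁ / V₂ := by
      rw [le_div_iff₀ hV2]
      linarith
    have b : 1 ≤ (V₁ / V₂) ^ 2 := one_le_pow₀ a
    have c : 1 ≤ 1 + w * R := by
      have : 0 ≤ w * R := by positivity
      linarith
    nlinarith
  generalize (V₁ / V₂) ^ 2 * (1 + w * R) = Z at *
  have hR1 : 1 / R ≤ 1 := by
    rw [div_le_one hR0]
    exact hR
  have m3 : M ^ 3 ≤ M ^ 4 := pow_le_pow_right₀ hM (by norm_num)
  have m2 : M ^ 2 ≤ M ^ 4 := pow_le_pow_right₀ hM (by norm_num)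
  have m0 : 0 < M ^ 4 := by positivity
  have t1 : 256 * M ^ 4 * (1 / R) ≤ 256 * M ^ 4 * Z := by
    gcongr
    linarith
  have t2 : 96 * M ^ 3 ≤ 96 * M ^ 4 * Z := by nlinarith
  have t3 : 9 * M ^ 2 * Z ≤ 9 * M ^ 4 * Z := by
    gcongr
  nlinarith

end Pool.Agent.F5H.K2.H63
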